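import Mathlib
import Pool.Agent.R256.Ker3

set_option autoImplicit false

open ComplexConjugate
open scoped ComplexOrder

namespace Pool.Agent.Results.MP_232e98_an.MinimumCertificate

noncomputable section

/-- the open disc of radius `1/√2` about the origin -/
abbrev Disc : Type := {z : ℂ // ‖z‖ < 1 / Real.sqrt 2}

/-- positive semidefinite functions: all sums `∑ c_i c̄_j K(x_i,x_j)` are real and nonnegative -/
def IsKernel (K : Disc → Disc → ℂ) : Prop :=
  ∀ (n : ℕ) (x : Fin n → Disc) (c : Fin n → ℂ), 0 ≤ ∑ i, ∑ j, c i * conj (c j) * K (x i) (x j)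

/-- complete Pick kernels -/
def IsCP (s : Disc → Disc → ℂ) : Prop :=
  IsKernel s ∧ (∀ z w, s z w ≠ 0) ∧
    ∃ (δ : Disc → ℂ) (F : Disc → Disc → ℂ), (∀ z, δ z ≠ 0) ∧ IsKernel F ∧ (∀ z, (F z z).re < 1) ∧
      ∀ z w, s z w = δ z * conj (δ w) / (1 - F z w)

/-- certificates -/
def IsCert (k s : Disc → Disc → ℂ) : Prop :=
  IsCP s ∧ ∃ h, IsKernel h ∧ ∀ z w, k z w = (1 - h z w) * s z w

/-- minimum certificates -/
def IsMinCert (k s : Disc → Disc → ℂ) : Prop :=
  IsCert k s ∧ ∀ s', IsCert k s' → IsKernel (fun z w => s' z w / s z w)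

/-- the Bergman kernel `(1 - z w̄)⁻²` -/
def bergman (z w : Disc) : ℂ := ((1 - z.1 * conj w.1) ^ 2)⁻¹

/-- the kernel `(1 - 2 z w̄)⁻¹` -/
def s₀ (z w : Disc) : ℂ := (1 - 2 * (z.1 * conj w.1))⁻¹

lemma nsq (z : Disc) : ‖z.1‖ ^ 2 < 1 / 2 := by
  have h := z.2
  have h2 : (1 / Real.sqrt 2) ^ 2 = 1 / 2 := by
    rw [div_pow, Real.sq_sqrt (by norm_num)]; norm_num
  rw [← h2]
  exact pow_lt_pow_left₀ h (norm_nonneg _) two_ne_zero

open Pool.Agent.R256.Ker

lemma hx (z w : Disc) : ‖2 * (z.1 * conj w.1)‖ < 1 := by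
  rw [norm_mul, norm_mul, RCLike.norm_conj]
  simp only [Complex.norm_ofNat]
  nlinarith [nsq z, nsq w, norm_nonneg z.1, norm_nonneg w.1, sq_nonneg (‖z.1‖ - ‖w.1‖)]

lemma hx' (z w : Disc) : ‖z.1 * conj w.1‖ < 1 := by
  have := hx z w
  rw [norm_mul] at this
  simp only [Complex.norm_ofNat] at this
  linarith [norm_nonneg (z.1 * conj w.1)]

lemma ne_of {x : ℂ} (h : ‖x‖ < 1) : 1 - x ≠ 0 := by
  intro h0
  rw [sub_eq_zero] at h0
  rw [← h0, norm_one] at h
  exact lt_irrefl _ h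

lemma k2 : PSD (fun z w : Disc => 2 * (z.1 * conj w.1)) := by
  have := (psd_dyad (fun z : Disc => z.1)).smul (a := 2) (by norm_num)
  exact this.congr fun x y => by push_cast; ring

lemma diag (z : Disc) : z.1 * conj z.1 = ((‖z.1‖ ^ 2 : ℝ) : ℂ) := by
  rw [Complex.mul_conj, Complex.normSq_eq_norm_sq]

lemma ks : PSD s₀ := by
  refine PSD.geom k2 fun z => ?_
  rw [diag]
  have := nsq z
  have e : (2 * ((‖z.1‖ ^ 2 : ℝ) : ℂ)) = ((2 * ‖z.1‖ ^ 2 : ℝ) : ℂ) := by push_cast; ring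
  rw [e, Complex.ofReal_re]
  linarith

lemma kg : PSD (fun z w : Disc => (1 - z.1 * conj w.1)⁻¹) := by
  refine PSD.geom (psd_dyad fun z : Disc => z.1) fun z => ?_
  rw [diag, Complex.ofReal_re]
  linarith [nsq z]

lemma kb : PSD bergman := (kg.mul kg).congr fun x y => by
  rw [bergman, sq, mul_inv]

lemma alg1 {x : ℂ} (h1 : 1 - 2 * x ≠ 0) (h2 : 1 - x ≠ 0) :
    ((1 - x) ^ 2)⁻¹ = (1 - x ^ 2 * ((1 - x) ^ 2)⁻¹) * (1 - 2 * x)⁻¹ := by
  have e : 1 - x ^ 2 * ((1 - x) ^ 2)⁻¹ = ((1 - x) ^ 2)⁻¹ * (1 - 2 * x) := by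
    field_simp
    ring
  rw [e, mul_assoc, mul_inv_cancel₀ h1, mul_one]

lemma alg2 {U V Y R : ℂ} (hU : U ≠ 0) (hV : V ≠ 0) (hY : Y ≠ 0) :
    U * V * Y - R = U * V * Y * (1 - R * (U⁻¹ * V⁻¹) * Y⁻¹) := by
  field_simp

lemma alg3 {a b c D E U V Y τ ρ T : ℂ} (ha : a ≠ 0) (hb : b ≠ 0) (hc : c ≠ 0)
    (hU : U ≠ 0) (hV : V ≠ 0) (hY : Y ≠ 0) (hT : 1 - T ≠ 0)
    (e : τ * (a * ρ / (b * c)) = U * V * Y * (1 - T)) :
    D * E / a / Y⁻¹ = ρ * τ * (D / (b * U) * (E / (c * V)) * (1 - T)⁻¹) := by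
  field_simp at e ⊢
  linear_combination (-(D * E)) * e

lemma cert : IsCert bergman s₀ := by
  refine ⟨⟨ks, fun z w => inv_ne_zero (ne_of (hx z w)), fun _ => 1, fun z w => 2 * (z.1 * conj w.1),
    fun _ => one_ne_zero, k2, fun z => ?_, fun z w => ?_⟩, fun z w =>
      (z.1 * conj w.1) ^ 2 * bergman z w, ?_, fun z w => ?_⟩
  · show (2 * (z.1 * conj z.1)).re < 1
    rw [diag]
    have := nsq z
    have e : (2 * ((‖z.1‖ ^ 2 : ℝ) : ℂ)) = ((2 * ‖z.1‖ ^ 2 : ℝ) : ℂ) := by push_cast; ring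
    rw [e, Complex.ofReal_re]
    linarith
  · simp [s₀]
  · exact ((psd_dyad fun z : Disc => z.1).pow 2).mul kb
  · exact alg1 (ne_of (hx z w)) (ne_of (hx' z w))

/-- the origin -/
def o : Disc := ⟨0, by simp⟩

lemma zo : o.1 = 0 := rfl

/-- `s₀` is a minimum certificate for the Bergman kernel over the disc of radius `1/√2`. -/
theorem minCert : IsMinCert bergman s₀ := by
  refine ⟨cert, ?_⟩
  rintro s' ⟨⟨-, hs0, δ, F₀, hδ, hF₀, hF₀1, hs'⟩, h, hh, hb⟩
  -- `1 - F₀` does not vanish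
  have hF₀ne : ∀ z w, 1 - F₀ z w ≠ 0 := by
    intro z w h0
    apply hs0 z w
    rw [hs', h0, div_zero]
  have hF₀c : ∀ z w, F₀ w z = conj (F₀ z w) := fun z w => PSD.herm hF₀ z w
  have hhc : ∀ z w, h w z = conj (h z w) := fun z w => PSD.herm hh z w
  -- real numbers
  set ρ : ℝ := (F₀ o o).re with hρ
  have hρK : F₀ o o = (ρ : ℂ) := by
    apply Complex.ext
    · simp [hρ]
    · have := (Complex.le_def.mp (PSD.diag hF₀ o)).2
      simp at this
      simp [← this]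
  have hρ1 : ρ < 1 := hF₀1 o
  -- the normalised kernel
  set F : Disc → Disc → ℂ := fun z w =>
    1 - (1 - F₀ z w) * (1 - F₀ o o) / ((1 - F₀ z o) * (1 - F₀ o w)) with hF
  have hFk : PSD F := PSD.normalise hF₀ o (hF₀1 o) fun z => hF₀ne z o
  have hF1 : ∀ z, (F z z).re < 1 := by
    intro z
    have e : F z z = ((1 - (1 - (F₀ z z).re) * (1 - ρ) / ‖1 - F₀ z o‖ ^ 2 : ℝ) : ℂ) := by
      have h1 : F₀ z z = ((F₀ z z).re : ℂ) := by
        apply Complex.ext
        · simp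
        · have := (Complex.le_def.mp (PSD.diag hF₀ z)).2
          simp at this
          simp [← this]
      have h2 : (1 - F₀ z o) * (1 - F₀ o z) = ((‖1 - F₀ z o‖ ^ 2 : ℝ) : ℂ) := by
        rw [← Complex.normSq_eq_norm_sq, ← Complex.mul_conj, map_sub, map_one, ← hF₀c]
      simp only [hF]
      rw [h2, hρK]
      rw [h1]
      push_cast
      simp
    rw [e, Complex.ofReal_re]
    have h3 : 0 < ‖1 - F₀ z o‖ ^ 2 := by
      have := norm_pos_iff.mpr (hF₀ne z o)
      positivity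
    have h4 : 0 < 1 - (F₀ z z).re := by linarith [hF₀1 z]
    have h5 : 0 < 1 - ρ := by linarith
    have : 0 < (1 - (F₀ z z).re) * (1 - ρ) / ‖1 - F₀ z o‖ ^ 2 := by positivity
    linarith
  -- `1 - h`
  have hh1 : ∀ z w, 1 - h z w = bergman z w * (1 - F₀ z w) / (δ z * conj (δ w)) := by
    intro z w
    have h1 := hb z w
    rw [hs'] at h1
    have h2 := hF₀ne z w
    have h3 := hδ z
    have h4 : conj (δ w) ≠ 0 := (map_ne_zero _).mpr (hδ w)
    rw [h1]
    field_simp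
  have hbne : ∀ z w, bergman z w ≠ 0 := fun z w => inv_ne_zero (pow_ne_zero _ (ne_of (hx' z w)))
  have hhne : ∀ z w, 1 - h z w ≠ 0 := by
    intro z w
    rw [hh1]
    exact div_ne_zero (mul_ne_zero (hbne z w) (hF₀ne z w))
      (mul_ne_zero (hδ z) ((map_ne_zero _).mpr (hδ w)))
  have hboo : ∀ z, bergman z o = 1 := by intro z; simp [bergman, zo]
  have hboo' : ∀ z, bergman o z = 1 := by intro z; simp [bergman, zo]
  have hhoo : (h o o).re < 1 := by
    have h1 := hh1 o o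
    rw [hboo, hρK, one_mul, Complex.mul_conj] at h1
    have h2 : (1 - h o o).re = (1 - ρ) / Complex.normSq (δ o) := by
      rw [h1]
      have : ((1 : ℂ) - (ρ : ℂ)) / (Complex.normSq (δ o) : ℂ) = (((1 - ρ) / Complex.normSq (δ o) : ℝ) : ℂ) := by
        push_cast; ring
      rw [this, Complex.ofReal_re]
    have h3 : 0 < Complex.normSq (δ o) := Complex.normSq_pos.mpr (hδ o)
    have h4 : 0 < (1 - ρ) / Complex.normSq (δ o) := div_pos (by linarith) h3
    rw [← h2, Complex.sub_re, Complex.one_re] at h4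
    linarith
  have hP := PSD.normalise hh o hhoo fun z => hhne z o
  -- `1 - b (1 - F)` is a kernel
  have hP2 : PSD (fun z w => 1 - bergman z w * (1 - F z w)) := by
    refine hP.congr fun z w => ?_
    simp only [hF]
    rw [hh1 z w, hh1 o o, hh1 z o, hh1 o w, hboo, hboo, hboo']
    have a1 := hF₀ne z w
    have a2 := hF₀ne z o
    have a3 := hF₀ne o w
    have a4 := hF₀ne o o
    have b1 := hδ z
    have b2 := hδ o
    have b3 : conj (δ w) ≠ 0 := (map_ne_zero _).mpr (hδ w)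
    have b4 : conj (δ o) ≠ 0 := (map_ne_zero _).mpr (hδ o)
    field_simp
    ring
  have hQ : PSD (fun z w : Disc => (z.1 * conj w.1) ^ 2 *
      (bergman z w + (((2 : ℝ) : ℂ) * (1 - z.1 * conj w.1)⁻¹))) :=
    ((psd_dyad fun z : Disc => z.1).pow 2).mul (kb.add (kg.smul (by norm_num)))
  have hK : PSD (fun z w : Disc => ((1 - z.1 * conj w.1) ^ 2)⁻¹ * F z w - 2 * (z.1 * conj w.1)) := by
    refine (hP2.add hQ).congr fun z w => ?_
    have h2 := ne_of (hx' z w)
    rw [bergman]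
    field_simp
    push_cast
    ring
  obtain ⟨u, t, R, hu, ht, hR, hstr⟩ := structure_lemma (fun z : Disc => z.1) nsq
    (fun z hz => ⟨⟨z, by
      rw [lt_div_iff₀ (by positivity)]
      have h1 : (‖z‖ * Real.sqrt 2) ^ 2 < 1 ^ 2 := by
        rw [mul_pow, Real.sq_sqrt (by norm_num)]; linarith
      exact lt_of_pow_lt_pow_left₀ 2 (by norm_num) h1⟩, rfl⟩) hFk hF1 hK
  -- the kernel `T`
  have huc : ∀ z, conj (u z) ≠ 0 := fun z => (map_ne_zero _).mpr (hu z)
  set T : Disc → Disc → ℂ := fun z w => R z w * ((u z)⁻¹ * conj (u w)⁻¹) * s₀ z w with hT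
  have hTk : PSD T := (PSD.mul hR (psd_dyad fun z => (u z)⁻¹)).mul ks
  have hTeq : ∀ z w, ((1 - t : ℝ) : ℂ) * (1 - F z w) =
      u z * conj (u w) * (1 - 2 * (z.1 * conj w.1)) * (1 - T z w) := by
    intro z w
    rw [hstr z w]
    simp only [hT, s₀, map_inv₀]
    exact alg2 (hu z) (huc w) (ne_of (hx z w))
  have hreal : ∀ z, T z z = ((T z z).re : ℂ) := by
    intro z
    apply Complex.ext
    · simp
    · have := (Complex.le_def.mp (PSD.diag hTk z)).2
      simp at this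
      simp [← this]
  have hT1 : ∀ z, (T z z).re < 1 := by
    intro z
    have h1 := hTeq z z
    have h2 : F z z = ((F z z).re : ℂ) := by
      apply Complex.ext
      · simp
      · have := (Complex.le_def.mp (PSD.diag hFk z)).2
        simp at this
        simp [← this]
    rw [h2, hreal z, Complex.mul_conj, diag] at h1
    have h3 : (1 - t) * (1 - (F z z).re) = Complex.normSq (u z) * (1 - 2 * ‖z.1‖ ^ 2) * (1 - (T z z).re) := by
      exact_mod_cast h1
    have h4 : 0 < Complex.normSq (u z) := Complex.normSq_pos.mpr (hu z)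
    have h5 : 0 < 1 - 2 * ‖z.1‖ ^ 2 := by linarith [nsq z]
    have h6 : 0 < (1 - t) * (1 - (F z z).re) := mul_pos (by linarith) (by linarith [hF1 z])
    rw [h3] at h6
    have h7 : 0 < 1 - (T z z).re := by
      by_contra hc
      push Not at hc
      have := mul_nonpos_of_nonneg_of_nonpos (mul_pos h4 h5).le hc
      linarith
    linarith
  have hgeo := PSD.geom hTk hT1
  have hdy := psd_dyad fun z => δ z / ((1 - F₀ z o) * u z)
  have hfin := (hdy.mul hgeo).smul (a := (1 - ρ) * (1 - t)) (by nlinarith)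
  show PSD (fun z w => s' z w / s₀ z w)
  refine PSD.congr hfin fun z w => ?_
  -- final identity
  have e1 : (1 - F z w) = (1 - F₀ z w) * (1 - F₀ o o) / ((1 - F₀ z o) * (1 - F₀ o w)) := by
    simp only [hF]; ring
  have e2 := hTeq z w
  have a0 := hF₀ne z w
  have a1 := hF₀ne z o
  have a2 := hF₀ne o w
  have a3 := hF₀ne o o
  have a4 := ne_of (hx z w)
  have a5 : 1 - T z w ≠ 0 := by
    intro h0
    rw [h0, mul_zero, e1] at e2
    have : ((1 - t : ℝ) : ℂ) ≠ 0 := by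
      have : 1 - t ≠ 0 := by linarith
      exact_mod_cast this
    exact (mul_ne_zero this (div_ne_zero (mul_ne_zero a0 a3) (mul_ne_zero a1 a2))) e2
  rw [e1, hρK] at e2
  rw [hs', s₀, map_div₀, map_mul, map_sub, map_one, ← hF₀c]
  push_cast at e2 ⊢
  exact alg3 a0 a1 a2 (hu z) (huc w) a4 a5 e2

/-- There is a minimum certificate for the Bergman kernel over the disc of radius `1/√2`; namely
`(1 - 2 z w̄)⁻¹` is one. -/
theorem result : IsMinCert bergman (fun z w => (1 - 2 * (z.1 * conj w.1))⁻¹) ∧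
    ∃ s, IsMinCert bergman s := ⟨minCert, s₀, minCert⟩

end

end Pool.Agent.Results.MP_232e98_an.MinimumCertificate
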